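import Mathlib

/-!
# Edge count versus maximum forcing number

We prove that every finite simple graph `G` on `2 n` vertices (`n ≥ 1`) with a perfect matching
satisfies `e(G) ≥ n² / (n - F(G))`, where `F(G)` is the maximum forcing number.

Idea: for a perfect matching `M`, choose in every edge of `M` an endpoint of minimum degree, and
run a greedy (Caro-Wei style) argument on the edges of `M`.
-/

namespace Pool.Agent.Results.MP_f5b231_co.EdgeBound

open Finset

variable {V : Type*}

/-- `S` is a forcing set of the perfect matching `M` of `G`: `S` is a set of edges of `M`, and `M`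
is the only perfect matching of `G` that contains `S`. -/
def IsForcingSet (G : SimpleGraph V) (M : G.Subgraph) (S : Finset (Sym2 V)) : Prop :=
  (S : Set (Sym2 V)) ⊆ M.edgeSet ∧
    ∀ M' : G.Subgraph, M'.IsPerfectMatching → (S : Set (Sym2 V)) ⊆ M'.edgeSet → M' = M

/-- The forcing number `f(G, M)`: the minimum size of a forcing set of `M`. -/
noncomputable def forcingNumber (G : SimpleGraph V) (M : G.Subgraph) : ℕ :=
  sInf {k | ∃ S : Finset (Sym2 V), IsForcingSet G M S ∧ S.card = k}

/-- The maximum forcing number `F(G)`: the maximum of `f(G, M)` over the perfect matchings `M`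
of `G`. -/
noncomputable def maxForcingNumber (G : SimpleGraph V) : ℕ :=
  sSup {k | ∃ M : G.Subgraph, M.IsPerfectMatching ∧ forcingNumber G M = k}

/-- Abstract greedy lemma. -/
theorem greedy {ι : Type*} [DecidableEq ι] (N : ι → Finset ι) (hN : ∀ i, i ∉ N i) :
    ∀ (m : ℕ) (R : Finset ι), R.card = m → ∃ l : List ι, (∀ i ∈ l, i ∈ R) ∧
      l.Pairwise (fun i j => j ≠ i ∧ j ∉ N i) ∧
      ∑ i ∈ R, (1 : ℝ) / (1 + ((N i ∩ R).card : ℝ)) ≤ l.length := by
  intro m
  induction m using Nat.strong_induction_on with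
  | _ m ih =>
    intro R hR
    by_cases hne : R.Nonempty
    · obtain ⟨i, hiR, hmin⟩ := Finset.exists_min_image R (fun i => (N i ∩ R).card) hne
      set K : Finset ι := insert i (N i ∩ R) with hK
      have hKR : K ⊆ R := by
        intro x hx
        rw [hK, Finset.mem_insert] at hx
        rcases hx with rfl | hx
        · exact hiR
        · exact (Finset.mem_inter.1 hx).2
      set R' : Finset ι := R \ K with hR'
      have hcard : R'.card < m := by
        have : R' ⊂ R := by
          refine ⟨Finset.sdiff_subset, fun h => ?_⟩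
          have := h hiR
          rw [hR', Finset.mem_sdiff] at this
          exact this.2 (Finset.mem_insert_self _ _)
        rw [← hR]
        exact Finset.card_lt_card this
      obtain ⟨l, hlR, hlP, hlS⟩ := ih R'.card hcard R' rfl
      refine ⟨i :: l, ?_, ?_, ?_⟩
      · intro j hj
        rcases List.mem_cons.1 hj with rfl | hj
        · exact hiR
        · exact (Finset.mem_sdiff.1 (hlR j hj)).1
      · refine List.pairwise_cons.2 ⟨?_, hlP⟩
        intro j hj
        have hj' := Finset.mem_sdiff.1 (hlR j hj)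
        refine ⟨?_, ?_⟩
        · rintro rfl
          exact hj'.2 (Finset.mem_insert_self _ _)
        · intro hjN
          exact hj'.2 (Finset.mem_insert_of_mem (Finset.mem_inter.2 ⟨hjN, hj'.1⟩))
      · have hsplit : ∑ j ∈ R, (1 : ℝ) / (1 + ((N j ∩ R).card : ℝ)) =
            ∑ j ∈ K, (1 : ℝ) / (1 + ((N j ∩ R).card : ℝ)) +
            ∑ j ∈ R', (1 : ℝ) / (1 + ((N j ∩ R).card : ℝ)) := by
          rw [hR', add_comm, Finset.sum_sdiff hKR]
        have hKsum : ∑ j ∈ K, (1 : ℝ) / (1 + ((N j ∩ R).card : ℝ)) ≤ 1 := by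
          have hKc : (K.card : ℝ) = 1 + ((N i ∩ R).card : ℝ) := by
            rw [hK, Finset.card_insert_of_notMem]
            · push_cast; ring
            · intro h
              exact hN i (Finset.mem_inter.1 h).1
          have hpos : (0 : ℝ) < 1 + ((N i ∩ R).card : ℝ) := by positivity
          calc ∑ j ∈ K, (1 : ℝ) / (1 + ((N j ∩ R).card : ℝ))
              ≤ ∑ j ∈ K, (1 : ℝ) / (1 + ((N i ∩ R).card : ℝ)) := by
                refine Finset.sum_le_sum fun j hj => ?_
                have h1 : (N i ∩ R).card ≤ (N j ∩ R).card := hmin j (hKR hj)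
                have h2 : ((N i ∩ R).card : ℝ) ≤ ((N j ∩ R).card : ℝ) := by exact_mod_cast h1
                exact one_div_le_one_div_of_le hpos (by linarith)
            _ = K.card * ((1 : ℝ) / (1 + ((N i ∩ R).card : ℝ))) := by
                rw [Finset.sum_const, nsmul_eq_mul]
            _ = 1 := by
                rw [hKc]
                field_simp
        have hR'sum : ∑ j ∈ R', (1 : ℝ) / (1 + ((N j ∩ R).card : ℝ)) ≤
            ∑ j ∈ R', (1 : ℝ) / (1 + ((N j ∩ R').card : ℝ)) := by
          refine Finset.sum_le_sum fun j hj => ?_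
          have h1 : (N j ∩ R').card ≤ (N j ∩ R).card :=
            Finset.card_le_card (Finset.inter_subset_inter_left Finset.sdiff_subset)
          have h2 : ((N j ∩ R').card : ℝ) ≤ ((N j ∩ R).card : ℝ) := by exact_mod_cast h1
          exact one_div_le_one_div_of_le (by positivity) (by linarith)
        rw [hsplit]
        simp only [List.length_cons]
        push_cast
        linarith
    · rw [Finset.not_nonempty_iff_eq_empty] at hne
      subst hne
      exact ⟨[], by simp, List.Pairwise.nil, by simp⟩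

theorem exists_min_endpoint [Fintype V] (G : SimpleGraph V) [DecidableRel G.Adj] (e : Sym2 V) :
    ∃ b ∈ e, ∀ x ∈ e, G.degree b ≤ G.degree x := by
  induction e using Sym2.ind with
  | _ x y =>
    rcases le_total (G.degree x) (G.degree y) with h | h
    · refine ⟨x, Sym2.mem_mk_left x y, fun z hz => ?_⟩
      rcases Sym2.mem_iff.1 hz with rfl | rfl
      · exact le_rfl
      · exact h
    · refine ⟨y, Sym2.mem_mk_right x y, fun z hz => ?_⟩
      rcases Sym2.mem_iff.1 hz with rfl | rfl
      · exact h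
      · exact le_rfl

theorem edge_unique {G : SimpleGraph V} {M : G.Subgraph} (hM : M.IsPerfectMatching)
    {e f : Sym2 V} (he : e ∈ M.edgeSet) (hf : f ∈ M.edgeSet) {v : V} (hve : v ∈ e)
    (hvf : v ∈ f) : e = f := by
  obtain ⟨x, rfl⟩ := Sym2.mem_iff_exists.1 hve
  obtain ⟨y, rfl⟩ := Sym2.mem_iff_exists.1 hvf
  rw [SimpleGraph.Subgraph.mem_edgeSet] at he hf
  rw [hM.1.eq_of_adj_left he hf]

theorem forced {G : SimpleGraph V} {M M' : G.Subgraph} (hM : M.IsPerfectMatching)
    (hM' : M'.IsPerfectMatching) (b : Sym2 V → V) (hb : ∀ e, b e ∈ e)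
    (N : Sym2 V → Finset (Sym2 V))
    (hN : ∀ i ∈ M.edgeSet, ∀ j ∈ M.edgeSet, j ≠ i → (∃ w ∈ j, G.Adj (b i) w) → j ∈ N i) :
    ∀ l : List (Sym2 V), (∀ i ∈ l, i ∈ M.edgeSet) →
      l.Pairwise (fun i j => j ≠ i ∧ j ∉ N i) →
      (∀ e ∈ M.edgeSet, e ∉ l → e ∈ M'.edgeSet) → ∀ e ∈ M.edgeSet, e ∈ M'.edgeSet := by
  intro l
  induction l with
  | nil => intro _ _ h e he; exact h e he (by simp)
  | cons i l ih =>
    intro hl hP h
    have hP' := List.pairwise_cons.1 hP
    have hiM : i ∈ M.edgeSet := hl i (by simp)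
    have hi : i ∈ M'.edgeSet := by
      -- the partner of `b i` in `M'`
      obtain ⟨w, hw, -⟩ := (SimpleGraph.Subgraph.isPerfectMatching_iff.1 hM') (b i)
      obtain ⟨p, hp⟩ := Sym2.mem_iff_exists.1 (hb i)
      by_cases hwi : w ∈ i
      · have hwb : w ≠ b i := (SimpleGraph.Subgraph.Adj.ne hw).symm
        have hwi' : w ∈ s(b i, p) := by rw [← hp]; exact hwi
        rcases Sym2.mem_iff.1 hwi' with h1 | h1
        · exact absurd h1 hwb
        · have h2 : s(b i, w) = i := by rw [h1]; exact hp.symm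
          rw [← h2]
          exact hw
      · -- `w` lies on another edge `j` of `M`
        obtain ⟨x, hx, -⟩ := (SimpleGraph.Subgraph.isPerfectMatching_iff.1 hM) w
        have hjM : s(w, x) ∈ M.edgeSet := hx
        have hji : s(w, x) ≠ i := by
          rintro rfl
          exact hwi (Sym2.mem_mk_left w x)
        have hjN : s(w, x) ∈ N i :=
          hN i hiM _ hjM hji ⟨w, Sym2.mem_mk_left w x, hw.adj_sub⟩
        have hjl : s(w, x) ∉ i :: l := by
          intro hmem
          rcases List.mem_cons.1 hmem with h1 | h1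
          · exact hji h1
          · exact (hP'.1 _ h1).2 hjN
        have hjM' : s(w, x) ∈ M'.edgeSet := h _ hjM hjl
        have : s(w, x) = s(b i, w) :=
          edge_unique hM' hjM' (show s(b i, w) ∈ M'.edgeSet from hw) (Sym2.mem_mk_left w x)
            (Sym2.mem_mk_right _ _)
        have hbx : b i ∈ s(w, x) := by rw [this]; exact Sym2.mem_mk_left _ _
        exact absurd (edge_unique hM hjM hiM hbx (hb i)) hji
    refine ih (fun j hj => hl j (List.mem_cons_of_mem _ hj)) hP'.2 ?_
    intro e he hel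
    by_cases hei : e = i
    · rw [hei]; exact hi
    · exact h e he (by simp [hei, hel])

theorem eq_of_edges {G : SimpleGraph V} {M M' : G.Subgraph} (hM : M.IsPerfectMatching)
    (hM' : M'.IsPerfectMatching) (h : ∀ e ∈ M.edgeSet, e ∈ M'.edgeSet) : M' = M := by
  refine SimpleGraph.Subgraph.IsMatching.injOn_edgeSet hM'.1 hM.1 ?_
  ext e
  refine ⟨fun he => ?_, h e⟩
  induction e using Sym2.ind with
  | _ v w =>
    obtain ⟨x, hx, -⟩ := (SimpleGraph.Subgraph.isPerfectMatching_iff.1 hM) v
    have h1 : M'.Adj v x := h s(v, x) hx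
    have h2 : M'.Adj v w := he
    rw [hM'.1.eq_of_adj_left h2 h1]
    exact hx

/-- Sum over the vertices, grouped along the edges of a perfect matching. -/
theorem sum_edges [Fintype V] [DecidableEq V] {G : SimpleGraph V} {M : G.Subgraph}
    (hM : M.IsPerfectMatching) (I : Finset (Sym2 V)) (hI : ∀ e, e ∈ I ↔ e ∈ M.edgeSet)
    (f : V → ℕ) : ∑ v, f v = ∑ i ∈ I, ∑ v ∈ i.toFinset, f v := by
  classical
  have hdisj : ∀ i ∈ I, ∀ j ∈ I, i ≠ j → Disjoint i.toFinset j.toFinset := by
    intro i hi j hj hij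
    rw [Finset.disjoint_left]
    intro v hv hv'
    exact hij (edge_unique hM ((hI i).1 hi) ((hI j).1 hj) (Sym2.mem_toFinset.1 hv)
      (Sym2.mem_toFinset.1 hv'))
  rw [← Finset.sum_biUnion (fun i hi j hj hij => hdisj i hi j hj hij)]
  congr 1
  ext v
  simp only [Finset.mem_univ, true_iff, Finset.mem_biUnion]
  obtain ⟨x, hx, -⟩ := (SimpleGraph.Subgraph.isPerfectMatching_iff.1 hM) v
  exact ⟨s(v, x), (hI _).2 hx, Sym2.mem_toFinset.2 (Sym2.mem_mk_left v x)⟩

theorem card_toFinset_edge [DecidableEq V] {G : SimpleGraph V} {M : G.Subgraph} {e : Sym2 V}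
    (he : e ∈ M.edgeSet) : e.toFinset.card = 2 := by
  refine Sym2.card_toFinset_of_not_isDiag e ?_
  induction e using Sym2.ind with
  | _ v w =>
    rw [Sym2.mk_isDiag_iff]
    exact SimpleGraph.Subgraph.Adj.ne he

/-- Key estimate: `f(G, M) ≤ n - L` for some `L` with `n² ≤ L e(G)`. -/
theorem key [Fintype V] [DecidableEq V] (G : SimpleGraph V) [DecidableRel G.Adj] (n : ℕ)
    (hn : 1 ≤ n) (hV : Fintype.card V = 2 * n) (M : G.Subgraph) (hM : M.IsPerfectMatching) :
    ∃ L : ℕ, forcingNumber G M + L ≤ n ∧ (n : ℝ) ^ 2 / (G.edgeFinset.card : ℝ) ≤ L := by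
  classical
  choose b hb hbmin using exists_min_endpoint G
  set I : Finset (Sym2 V) := M.edgeSet.toFinset with hIdef
  have hI : ∀ e, e ∈ I ↔ e ∈ M.edgeSet := fun e => by rw [hIdef, Set.mem_toFinset]
  set N : Sym2 V → Finset (Sym2 V) :=
    fun i => I.filter (fun j => j ≠ i ∧ ∃ w ∈ j, G.Adj (b i) w) with hNdef
  have hNi : ∀ i, i ∉ N i := by
    intro i h
    exact (Finset.mem_filter.1 h).2.1 rfl
  -- cardinality of `I`
  have hIcard : I.card = n := by
    have h1 := sum_edges hM I hI (fun _ => 1)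
    have h2 : ∑ i ∈ I, ∑ v ∈ i.toFinset, 1 = ∑ i ∈ I, 2 := by
      refine Finset.sum_congr rfl fun i hi => ?_
      rw [Finset.sum_const, smul_eq_mul, mul_one]
      exact card_toFinset_edge ((hI i).1 hi)
    rw [h2, Finset.sum_const, Finset.sum_const, smul_eq_mul, smul_eq_mul, Finset.card_univ, hV]
      at h1
    omega
  -- degree sum
  have hdeg : ∑ i ∈ I, G.degree (b i) ≤ G.edgeFinset.card := by
    have h1 := sum_edges hM I hI (fun v => G.degree v)
    have h2 := G.sum_degrees_eq_twice_card_edges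
    have h3 : ∑ i ∈ I, 2 * G.degree (b i) ≤ ∑ i ∈ I, ∑ v ∈ i.toFinset, G.degree v := by
      refine Finset.sum_le_sum fun i hi => ?_
      calc 2 * G.degree (b i) = ∑ v ∈ i.toFinset, G.degree (b i) := by
            rw [Finset.sum_const, smul_eq_mul, card_toFinset_edge ((hI i).1 hi)]
        _ ≤ ∑ v ∈ i.toFinset, G.degree v :=
            Finset.sum_le_sum fun v hv => hbmin i v (Sym2.mem_toFinset.1 hv)
    rw [← Finset.mul_sum] at h3
    omega
  -- the size of `N i`
  have hNcard : ∀ i ∈ I, (N i).card + 1 ≤ G.degree (b i) := by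
    intro i hi
    obtain ⟨p, hp⟩ := Sym2.mem_iff_exists.1 (hb i)
    have hbp : M.Adj (b i) p := by
      have h1 : s(b i, p) ∈ M.edgeSet := by
        rw [← hp]
        exact (hI i).1 hi
      exact h1
    have hpi : p ∈ i := by
      have h1 : p ∈ s(b i, p) := Sym2.mem_mk_right _ _
      rwa [← hp] at h1
    have hw : ∀ j : Sym2 V, ∃ w : V, j ∈ N i → w ∈ j ∧ G.Adj (b i) w := by
      intro j
      by_cases hj : j ∈ N i
      · obtain ⟨w, hwj, hwb⟩ := (Finset.mem_filter.1 hj).2.2
        exact ⟨w, fun _ => ⟨hwj, hwb⟩⟩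
      · exact ⟨b i, fun h => absurd h hj⟩
    choose w hw using hw
    have hcard : (N i).card ≤ ((G.neighborFinset (b i)).erase p).card := by
      refine Finset.card_le_card_of_injOn w ?_ ?_
      · intro j hj
        have hj' : j ∈ N i := hj
        have hjI := (Finset.mem_filter.1 hj').1
        have hjne := (Finset.mem_filter.1 hj').2.1
        refine Finset.mem_coe.2 (Finset.mem_erase.2 ⟨?_, ?_⟩)
        · intro h
          exact hjne (edge_unique hM ((hI j).1 hjI) ((hI i).1 hi) (v := p)
            (by rw [← h]; exact (hw j hj').1) hpi)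
        · rw [SimpleGraph.mem_neighborFinset]
          exact (hw j hj').2
      · intro j hj k hk hjk
        have hj' : j ∈ N i := hj
        have hk' : k ∈ N i := hk
        refine edge_unique hM ((hI j).1 (Finset.mem_filter.1 hj').1)
          ((hI k).1 (Finset.mem_filter.1 hk').1) (v := w j) (hw j hj').1 ?_
        rw [hjk]
        exact (hw k hk').1
    have hpmem : p ∈ G.neighborFinset (b i) := by
      rw [SimpleGraph.mem_neighborFinset]
      exact hbp.adj_sub
    rw [Finset.card_erase_of_mem hpmem, SimpleGraph.card_neighborFinset_eq_degree] at hcard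
    have hpos : 0 < G.degree (b i) := by
      rw [← SimpleGraph.card_neighborFinset_eq_degree]
      exact Finset.card_pos.2 ⟨p, hpmem⟩
    omega
  obtain ⟨l, hlI, hlP, hlS⟩ := greedy N hNi I.card I rfl
  have hnodup : l.Nodup := hlP.imp (fun h => h.1.symm)
  have hlcard : l.toFinset.card = l.length := List.toFinset_card_of_nodup hnodup
  have hlsub : l.toFinset ⊆ I := fun i hi => hlI i (List.mem_toFinset.1 hi)
  refine ⟨l.length, ?_, ?_⟩
  · -- the forcing set
    have hforce : IsForcingSet G M (I \ l.toFinset) := by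
      refine ⟨fun e he => (hI e).1 (Finset.mem_sdiff.1 he).1, fun M' hM' hS => ?_⟩
      refine eq_of_edges hM hM' ?_
      refine forced hM hM' b hb N ?_ l (fun i hi => (hI i).1 (hlI i hi)) hlP ?_
      · intro i hi j hj hji hw
        exact Finset.mem_filter.2 ⟨(hI j).2 hj, hji, hw⟩
      · intro e he hel
        refine hS (Finset.mem_coe.2 (Finset.mem_sdiff.2 ⟨(hI e).2 he, ?_⟩))
        rwa [List.mem_toFinset]
    have h1 : forcingNumber G M ≤ (I \ l.toFinset).card := Nat.sInf_le ⟨_, hforce, rfl⟩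
    have h2 : (I \ l.toFinset).card = I.card - l.toFinset.card := Finset.card_sdiff_of_subset hlsub
    have h3 : l.toFinset.card ≤ I.card := Finset.card_le_card hlsub
    omega
  · refine le_trans ?_ hlS
    have hdegpos : ∀ i ∈ I, (0 : ℝ) < (G.degree (b i) : ℝ) := by
      intro i hi
      have := hNcard i hi
      exact_mod_cast (by omega : 0 < G.degree (b i))
    have hIne : I.Nonempty := by
      rw [← Finset.card_pos, hIcard]; omega
    have hsumpos : (0 : ℝ) < ∑ i ∈ I, (G.degree (b i) : ℝ) := Finset.sum_pos hdegpos hIne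
    have h1 : (∑ i ∈ I, (1 : ℝ)) ^ 2 / ∑ i ∈ I, (G.degree (b i) : ℝ) ≤
        ∑ i ∈ I, (1 : ℝ) ^ 2 / (G.degree (b i) : ℝ) :=
      Finset.sq_sum_div_le_sum_sq_div I (fun _ => (1 : ℝ)) hdegpos
    have h2 : (∑ i ∈ I, (1 : ℝ)) = n := by
      rw [Finset.sum_const, nsmul_eq_mul, mul_one, hIcard]
    rw [h2] at h1
    have h3 : (∑ i ∈ I, (G.degree (b i) : ℝ)) ≤ (G.edgeFinset.card : ℝ) := by
      exact_mod_cast hdeg
    calc (n : ℝ) ^ 2 / (G.edgeFinset.card : ℝ)
        ≤ (n : ℝ) ^ 2 / ∑ i ∈ I, (G.degree (b i) : ℝ) :=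
          div_le_div_of_nonneg_left (by positivity) hsumpos h3
      _ ≤ ∑ i ∈ I, (1 : ℝ) ^ 2 / (G.degree (b i) : ℝ) := h1
      _ ≤ ∑ i ∈ I, (1 : ℝ) / (1 + ((N i ∩ I).card : ℝ)) := by
          refine Finset.sum_le_sum fun i hi => ?_
          rw [one_pow]
          have h4 : (N i ∩ I).card ≤ (N i).card := Finset.card_le_card Finset.inter_subset_left
          have h5 := hNcard i hi
          have h6 : 1 + ((N i ∩ I).card : ℝ) ≤ (G.degree (b i) : ℝ) := by
            exact_mod_cast (by omega : 1 + (N i ∩ I).card ≤ G.degree (b i))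
          exact one_div_le_one_div_of_le (by positivity) h6

/-- **Edge count versus maximum forcing number.** Every finite simple graph `G` on `2 n` vertices,
`n ≥ 1`, with a perfect matching satisfies `F(G) ≤ n - 1` and `e(G) ≥ n² / (n - F(G))`. -/
theorem result (V : Type*) [Fintype V] [DecidableEq V] (G : SimpleGraph V) [DecidableRel G.Adj]
    (n : ℕ) (hn : 1 ≤ n) (hV : Fintype.card V = 2 * n)
    (hG : ∃ M : G.Subgraph, M.IsPerfectMatching) :
    maxForcingNumber G < n ∧
      (n : ℝ) ^ 2 / ((n : ℝ) - (maxForcingNumber G : ℝ)) ≤ (G.edgeFinset.card : ℝ) := by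
  obtain ⟨M₀, hM₀⟩ := hG
  have hmem : maxForcingNumber G ∈
      {k | ∃ M : G.Subgraph, M.IsPerfectMatching ∧ forcingNumber G M = k} := by
    refine Nat.sSup_mem ⟨_, M₀, hM₀, rfl⟩ ⟨n, ?_⟩
    rintro k ⟨M, hM, rfl⟩
    obtain ⟨L, hL, -⟩ := key G n hn hV M hM
    omega
  obtain ⟨M, hM, hF⟩ := hmem
  obtain ⟨L, hL, hLe⟩ := key G n hn hV M hM
  rw [hF] at hL
  -- there is at least one edge
  have he : (0 : ℝ) < (G.edgeFinset.card : ℝ) := by
    have hpos : 0 < Fintype.card V := by omega
    obtain ⟨v⟩ := Fintype.card_pos_iff.1 hpos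
    obtain ⟨w, hw, -⟩ := (SimpleGraph.Subgraph.isPerfectMatching_iff.1 hM) v
    have : 0 < G.edgeFinset.card :=
      Finset.card_pos.2 ⟨s(v, w), by rw [SimpleGraph.mem_edgeFinset]; exact hw.adj_sub⟩
    exact_mod_cast this
  have hn' : (0 : ℝ) < (n : ℝ) := by exact_mod_cast hn
  have hLpos : (0 : ℝ) < (L : ℝ) := lt_of_lt_of_le (by positivity) hLe
  have hLpos' : 0 < L := by exact_mod_cast hLpos
  have hcast : (maxForcingNumber G : ℝ) + (L : ℝ) ≤ (n : ℝ) := by exact_mod_cast hL
  refine ⟨by omega, ?_⟩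
  rw [div_le_iff₀ (by linarith)]
  rw [div_le_iff₀ he] at hLe
  calc (n : ℝ) ^ 2 ≤ (L : ℝ) * (G.edgeFinset.card : ℝ) := hLe
    _ ≤ ((n : ℝ) - (maxForcingNumber G : ℝ)) * (G.edgeFinset.card : ℝ) :=
        mul_le_mul_of_nonneg_right (by linarith) he.le
    _ = (G.edgeFinset.card : ℝ) * ((n : ℝ) - (maxForcingNumber G : ℝ)) := mul_comm _ _

end Pool.Agent.Results.MP_f5b231_co.EdgeBound
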